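import Mathlib

/-!
# Extreme magnitude Betti numbers of indecomposable arrangements

The arrangement in `ℝ^5` (rank `5`, `7` hyperplanes) given by the linear forms
`x0, x1, x0 + x1, x2, x3, x4, x0 + x2 + x3 + x4` is indecomposable, and
`β_{0,0} ≤ 128 < 168 ≤ β_{5,7}`. So the equality `β_{0,0} = β_{r,n}` fails.

Idea: the sign vector of the forms `x0, x1, x0 + x1` takes six values, arranged in a hexagon; this
gives a `1`-Lipschitz map `sec` from the tope graph to the hexagon (6-cycle). For `14` of the `16`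
sign patterns of the other four forms all six values occur, which gives `14` isometric hexagons
in the tope graph, each mapped isomorphically to the 6-cycle by `sec`. The 6-cycle has a class in
`MH_{5,7}` for each of the `12` ordered pairs of neighbours, detected by an explicit cocycle; this
cocycle, pulled back by `sec` and restricted to the tuples with given end points, is a cocycle on
the tope graph, so `MH_{5,7}` has rank at least `14 * 12 = 168`. On the other hand `β_{0,0}` is at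
most the number of sign vectors, `2 ^ 7 = 128`.
-/

set_option autoImplicit false

open Finset

namespace Pool.Agent.Results.MP_65cbfa_co.ExtremeBettiDiffer

/-! ### Magnitude homology -/

section Magnitude

variable {V : Type*} (d : V → V → ℕ)

/-- The length of a tuple `(x_0, …, x_k)`. -/
def len {k : ℕ} (x : Fin (k + 1) → V) : ℕ := ∑ i : Fin k, d (x i.castSucc) (x i.succ)

/-- The magnitude chain group `MC_{k,l}`: the free abelian group on the tuples `(x_0, …, x_k)` with
`x_{i-1} ≠ x_i` for all `i` and of length `l`, as a subgroup of the free abelian group on all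
tuples. -/
def MC (k l : ℕ) : Submodule ℤ ((Fin (k + 1) → V) →₀ ℤ) :=
  Finsupp.supported ℤ ℤ {x | (∀ i : Fin k, x i.castSucc ≠ x i.succ) ∧ len d x = l}

open Classical in
/-- The differential `∑ i, (-1) ^ i ∂_i`, `i = 1, …, k - 1`, where `∂_i` deletes `x_i` if
`d (x_{i-1}, x_{i+1}) = d (x_{i-1}, x_i) + d (x_i, x_{i+1})` and is `0` otherwise. (The summation
index below is `i - 1`.) -/
noncomputable def bd : (k : ℕ) → ((Fin (k + 1) → V) →₀ ℤ) →ₗ[ℤ] ((Fin k → V) →₀ ℤ)
  | 0 => 0
  | k + 1 => Finsupp.linearCombination ℤ fun x : Fin (k + 2) → V => ∑ i : Fin k,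
      if d (x i.castSucc.castSucc) (x i.succ.succ) =
          d (x i.castSucc.castSucc) (x i.succ.castSucc) + d (x i.succ.castSucc) (x i.succ.succ) then
        Finsupp.single (fun m => x (i.succ.castSucc.succAbove m)) ((-1 : ℤ) ^ (i.val + 1))
      else 0

/-- The cycles of `MC_{k,l}`. -/
noncomputable def Z (k l : ℕ) : Submodule ℤ ((Fin (k + 1) → V) →₀ ℤ) :=
  MC d k l ⊓ LinearMap.ker (bd d k)

/-- The boundaries in `MC_{k,l}`. -/
noncomputable def Bd (k l : ℕ) : Submodule ℤ ((Fin (k + 1) → V) →₀ ℤ) :=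
  (MC d (k + 1) l).map (bd d (k + 1))

/-- The rank of the magnitude homology group `MH_{k,l}`, cycles modulo boundaries. -/
noncomputable def betti (k l : ℕ) : ℕ :=
  Module.finrank ℤ (Z d k l ⧸ (Bd d k l).submoduleOf (Z d k l))

end Magnitude

/-! ### Arrangements, chambers, tope graphs -/

/-- A (linear, real) arrangement: a finite set of hyperplanes through the origin in `ℝ^d`. -/
structure Arrangement (d : ℕ) where
  /-- the hyperplanes -/
  hyp : Finset (Submodule ℝ (Fin d → ℝ))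
  codim : ∀ H ∈ hyp, Module.finrank ℝ H + 1 = d

namespace Arrangement

variable {d : ℕ} (A : Arrangement d)

/-- The rank `d - dim ⋂ H`. -/
noncomputable def rank : ℕ := d - Module.finrank ℝ (⨅ H ∈ A.hyp, H : Submodule ℝ (Fin d → ℝ))

/-- The complement of the union of the hyperplanes. -/
def compl : Set (Fin d → ℝ) := {x | ∀ H ∈ A.hyp, x ∉ H}

/-- The chambers: the connected components of the complement. -/
abbrev Chamber : Type := ConnectedComponents A.compl

/-- `H` separates the chambers `C` and `D`: every segment from a point of `C` to a point of `D`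
meets `H`. -/
def Separates (H : Submodule ℝ (Fin d → ℝ)) (C D : A.Chamber) : Prop :=
  ∀ x y : A.compl, ConnectedComponents.mk x = C → ConnectedComponents.mk y = D →
    ∃ z ∈ segment ℝ (x : Fin d → ℝ) (y : Fin d → ℝ), z ∈ H

/-- The tope graph: two chambers are adjacent if exactly one hyperplane separates them. -/
def tope : SimpleGraph A.Chamber where
  Adj C D := C ≠ D ∧ {H | H ∈ A.hyp ∧ A.Separates H C D}.ncard = 1
  symm := ⟨fun C D h => by
    refine ⟨h.1.symm, ?_⟩
    have : ∀ H, A.Separates H D C ↔ A.Separates H C D := fun H =>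
      ⟨fun h x y hx hy => by
        rw [segment_symm]
        exact h y x hy hx, fun h x y hx hy => by
        rw [segment_symm]
        exact h y x hy hx⟩
    simp only [this]
    exact h.2⟩
  loopless := ⟨fun C h => h.1 rfl⟩

/-- The magnitude Betti numbers `β_{k,l}` of the tope graph with its path metric. -/
noncomputable def betti (k l : ℕ) : ℕ :=
  ExtremeBettiDiffer.betti (fun C D : A.Chamber => A.tope.dist C D) k l

/-- Indecomposable: there is no decomposition `ℝ^d = V₁ ⊕ V₂` such that each hyperplane contains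
`V₁` or `V₂` (so is `V₁ ⊕ H₂` or `H₁ ⊕ V₂`), both kinds being present. -/
def Indecomposable : Prop :=
  ¬ ∃ V₁ V₂ : Submodule ℝ (Fin d → ℝ), IsCompl V₁ V₂ ∧ (∀ H ∈ A.hyp, V₁ ≤ H ∨ V₂ ≤ H) ∧
    (∃ H ∈ A.hyp, V₁ ≤ H) ∧ ∃ H ∈ A.hyp, V₂ ≤ H

end Arrangement

/-! ### Lower bound for the rank of a homology group -/

theorem card_le_betti {V : Type*} [Finite V] (d : V → V → ℕ) (k l : ℕ) {ι : Type*} [Fintype ι]
    (z : ι → ((Fin (k + 1) → V) →₀ ℤ)) (hz : ∀ i, z i ∈ Z d k l)
    (φ : ι → ((Fin (k + 1) → V) →₀ ℤ) →ₗ[ℤ] ℤ) (hφ : ∀ i, ∀ b ∈ Bd d k l, φ i b = 0)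
    (h1 : ∀ i, φ i (z i) = 1) (h0 : ∀ i j, i ≠ j → φ i (z j) = 0) :
    Fintype.card ι ≤ betti d k l := by
  classical
  unfold betti
  have : Module.Finite ℤ ((Fin (k + 1) → V) →₀ ℤ) := inferInstance
  have hfin : Module.Finite ℤ (Z d k l) := inferInstance
  have hli : LinearIndependent ℤ fun i : ι =>
      ((Bd d k l).submoduleOf (Z d k l)).mkQ ⟨z i, hz i⟩ := by
    rw [Fintype.linearIndependent_iff]
    intro g hg i
    have h2 : ((Bd d k l).submoduleOf (Z d k l)).mkQ (∑ j, g j • (⟨z j, hz j⟩ : Z d k l)) = 0 := by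
      rw [map_sum]
      simpa only [map_smul] using hg
    rw [Submodule.mkQ_apply, Submodule.Quotient.mk_eq_zero] at h2
    have h3 : (∑ j, g j • z j) ∈ Bd d k l := by
      have h4 : ((∑ j, g j • (⟨z j, hz j⟩ : Z d k l) : Z d k l) : (Fin (k + 1) → V) →₀ ℤ) ∈
          Bd d k l := h2
      simpa using h4
    have h5 := hφ i _ h3
    rw [map_sum, Finset.sum_eq_single i] at h5
    · simpa [h1 i] using h5
    · intro j _ hj
      rw [map_smul, h0 i j (Ne.symm hj), smul_zero]
    · intro h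
      exact absurd (Finset.mem_univ i) h
  exact hli.fintype_card_le_finrank

/-! ### The hexagon -/

/-- the distance of the hexagon -/
def h (s t : Fin 6) : ℕ := min (s - t).val (t - s).val

/-- the tuples which occur in the cocycle -/
def psi (s0 s1 s2 s3 s4 s5 : Fin 6) : Bool :=
  s0 == 0 && (s1 == 1 || s1 == 2) && s2 == 3 && (s3 == 4 || s3 == 5) && s4 == 0 && s5 == 1

/-- the cocycle condition in the hexagon -/
def cond (s1 s2 s3 s4 s5 : Fin 6) : Bool :=
  !(h 0 s1 + h s1 s2 + h s2 s3 + h s3 s4 + h s4 s5 + h s5 1 == 7) ||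
    s1 == 0 || s1 == s2 || s2 == s3 || s3 == s4 || s4 == s5 || s5 == 1 ||
    ((if h 0 s2 == h 0 s1 + h s1 s2 && psi 0 s2 s3 s4 s5 1 then (-1 : ℤ) else 0) +
      (if h s1 s3 == h s1 s2 + h s2 s3 && psi 0 s1 s3 s4 s5 1 then 1 else 0) +
      (if h s2 s4 == h s2 s3 + h s3 s4 && psi 0 s1 s2 s4 s5 1 then -1 else 0) +
      (if h s3 s5 == h s3 s4 + h s4 s5 && psi 0 s1 s2 s3 s5 1 then 1 else 0) +
      (if h s4 1 == h s4 s5 + h s5 1 && psi 0 s1 s2 s3 s4 1 then -1 else 0) == 0)

set_option maxRecDepth 100000 in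
theorem cond_all : ∀ s1 s2 s3 s4 s5 : Fin 6, cond s1 s2 s3 s4 s5 = true := by
  decide +kernel

set_option maxRecDepth 100000 in
theorem psi_len : ∀ s0 s1 s2 s3 s4 s5 : Fin 6, psi s0 s1 s2 s3 s4 s5 = true →
    h s0 s1 + h s1 s2 + h s2 s3 + h s3 s4 + h s4 s5 = 7 := by
  decide +kernel

theorem h_tri : ∀ s t u : Fin 6, h s u ≤ h s t + h t u := by
  decide +kernel

theorem h_self : ∀ s : Fin 6, h s s = 0 := by
  decide

/-! ### The cocycle -/

section Cocycle

variable {V : Type*} (d : V → V → ℕ)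

open Classical in
/-- a functional on the chains: the indicator function of a set of tuples -/
noncomputable def ind (P : V → V → V → V → V → V → Prop) : ((Fin 6 → V) →₀ ℤ) →ₗ[ℤ] ℤ :=
  Finsupp.linearCombination ℤ fun x : Fin 6 → V =>
    if P (x 0) (x 1) (x 2) (x 3) (x 4) (x 5) then (1 : ℤ) else 0

theorem ind_single (P : V → V → V → V → V → V → Prop) (x : Fin 6 → V) (c : ℤ) [Decidable
    (P (x 0) (x 1) (x 2) (x 3) (x 4) (x 5))] :
    ind P (Finsupp.single x c) = if P (x 0) (x 1) (x 2) (x 3) (x 4) (x 5) then c else 0 := by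
  unfold ind
  rw [Finsupp.linearCombination_single]
  by_cases hP : P (x 0) (x 1) (x 2) (x 3) (x 4) (x 5) <;> simp [hP]

open Classical in
theorem ind_bd (P : V → V → V → V → V → V → Prop) (x : Fin 7 → V) :
    ind P (bd d 6 (Finsupp.single x 1)) =
      (if d (x 0) (x 2) = d (x 0) (x 1) + d (x 1) (x 2) ∧
        P (x 0) (x 2) (x 3) (x 4) (x 5) (x 6) then (-1 : ℤ) else 0) +
      (if d (x 1) (x 3) = d (x 1) (x 2) + d (x 2) (x 3) ∧
        P (x 0) (x 1) (x 3) (x 4) (x 5) (x 6) then 1 else 0) +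
      (if d (x 2) (x 4) = d (x 2) (x 3) + d (x 3) (x 4) ∧
        P (x 0) (x 1) (x 2) (x 4) (x 5) (x 6) then -1 else 0) +
      (if d (x 3) (x 5) = d (x 3) (x 4) + d (x 4) (x 5) ∧
        P (x 0) (x 1) (x 2) (x 3) (x 5) (x 6) then 1 else 0) +
      (if d (x 4) (x 6) = d (x 4) (x 5) + d (x 5) (x 6) ∧
        P (x 0) (x 1) (x 2) (x 3) (x 4) (x 6) then -1 else 0) := by
  have key : ∀ (i : Fin 5) (Q : Prop), (Q ↔ P (x (i.succ.castSucc.succAbove 0))
      (x (i.succ.castSucc.succAbove 1)) (x (i.succ.castSucc.succAbove 2))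
      (x (i.succ.castSucc.succAbove 3)) (x (i.succ.castSucc.succAbove 4))
      (x (i.succ.castSucc.succAbove 5))) →
      ind P (if d (x i.castSucc.castSucc) (x i.succ.succ) =
          d (x i.castSucc.castSucc) (x i.succ.castSucc) + d (x i.succ.castSucc) (x i.succ.succ) then
        Finsupp.single (fun m => x (i.succ.castSucc.succAbove m)) ((-1 : ℤ) ^ (i.val + 1))
      else 0) = if d (x i.castSucc.castSucc) (x i.succ.succ) =
          d (x i.castSucc.castSucc) (x i.succ.castSucc) + d (x i.succ.castSucc) (x i.succ.succ) ∧ Q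
        then (-1 : ℤ) ^ (i.val + 1) else 0 := by
    intro i Q hQ
    by_cases h1 : d (x i.castSucc.castSucc) (x i.succ.succ) =
          d (x i.castSucc.castSucc) (x i.succ.castSucc) + d (x i.succ.castSucc) (x i.succ.succ)
    · rw [if_pos h1, ind_single]
      by_cases h2 : Q
      · rw [if_pos (hQ.1 h2), if_pos ⟨h1, h2⟩]
      · rw [if_neg (fun h => h2 (hQ.2 h)), if_neg (fun h => h2 h.2)]
    · rw [if_neg h1, map_zero, if_neg (fun h => h1 h.1)]
  have hbd : bd d 6 (Finsupp.single x 1) = ∑ i : Fin 5,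
      if d (x i.castSucc.castSucc) (x i.succ.succ) =
          d (x i.castSucc.castSucc) (x i.succ.castSucc) + d (x i.succ.castSucc) (x i.succ.succ) then
        Finsupp.single (fun m => x (i.succ.castSucc.succAbove m)) ((-1 : ℤ) ^ (i.val + 1))
      else 0 := by
    rw [bd, Finsupp.linearCombination_single, one_smul]
  rw [hbd, map_sum, Fin.sum_univ_five, key 0 _ Iff.rfl, key 1 _ Iff.rfl, key 2 _ Iff.rfl,
    key 3 _ Iff.rfl, key 4 _ Iff.rfl]
  rfl

/-- the tuples on which the cocycle is one -/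
def PP (sec : V → Fin 6) (e : Fin 6 → V) (x0 x1 x2 x3 x4 x5 : V) : Prop :=
  x0 = e 0 ∧ x5 = e 1 ∧ psi (sec x0) (sec x1) (sec x2) (sec x3) (sec x4) (sec x5) = true

theorem cocycle (hpos : ∀ x y, x ≠ y → 0 < d x y) (htri : ∀ x y z, d x z ≤ d x y + d y z)
    (sec : V → Fin 6) (hsec : ∀ x y, h (sec x) (sec y) ≤ d x y) (e : Fin 6 → V)
    (he : ∀ s, sec (e s) = s) (b : (Fin 6 → V) →₀ ℤ) (hb : b ∈ Bd d 5 7) :
    ind (PP sec e) b = 0 := by
  classical
  obtain ⟨c, hc, rfl⟩ := hb
  -- reduction to tuples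
  suffices hx : ∀ x : Fin 7 → V, (∀ i : Fin 6, x i.castSucc ≠ x i.succ) → len d x = 7 →
      ind (PP sec e) (bd d 6 (Finsupp.single x 1)) = 0 by
    have hle : MC d 6 7 ≤ LinearMap.ker ((ind (PP sec e)).comp (bd d 6)) := by
      unfold MC
      rw [Finsupp.supported_eq_span_single, Submodule.span_le]
      rintro _ ⟨x, ⟨hx1, hx2⟩, rfl⟩
      exact hx x hx1 hx2
    exact hle hc
  intro x hne hlen
  have hD : d (x 0) (x 1) + d (x 1) (x 2) + d (x 2) (x 3) + d (x 3) (x 4) + d (x 4) (x 5) +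
      d (x 5) (x 6) = 7 := by
    have h2 := hlen
    rw [len, Fin.sum_univ_six] at h2
    exact h2
  rw [ind_bd]
  by_cases hend : x 0 = e 0 ∧ x 6 = e 1
  swap
  · have hP : ∀ a b c d', ¬ PP sec e (x 0) a b c d' (x 6) := fun a b c d' hP =>
      hend ⟨hP.1, hP.2.1⟩
    simp [hP]
  obtain ⟨hx0, hx6⟩ := hend
  have s0 : sec (x 0) = 0 := by rw [hx0, he]
  have s6 : sec (x 6) = 1 := by rw [hx6, he]
  have n0 : 0 < d (x 0) (x 1) := hpos _ _ (hne 0)
  have n1 : 0 < d (x 1) (x 2) := hpos _ _ (hne 1)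
  have n2 : 0 < d (x 2) (x 3) := hpos _ _ (hne 2)
  have n3 : 0 < d (x 3) (x 4) := hpos _ _ (hne 3)
  have n4 : 0 < d (x 4) (x 5) := hpos _ _ (hne 4)
  have n5 : 0 < d (x 5) (x 6) := hpos _ _ (hne 5)
  have l0 := hsec (x 0) (x 1)
  have l1 := hsec (x 1) (x 2)
  have l2 := hsec (x 2) (x 3)
  have l3 := hsec (x 3) (x 4)
  have l4 := hsec (x 4) (x 5)
  have l5 := hsec (x 5) (x 6)
  have g0 := hsec (x 0) (x 2)
  have g1 := hsec (x 1) (x 3)
  have g2 := hsec (x 2) (x 4)
  have g3 := hsec (x 3) (x 5)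
  have g4 := hsec (x 4) (x 6)
  have t0 := htri (x 0) (x 1) (x 2)
  have t1 := htri (x 1) (x 2) (x 3)
  have t2 := htri (x 2) (x 3) (x 4)
  have t3 := htri (x 3) (x 4) (x 5)
  have t4 := htri (x 4) (x 5) (x 6)
  have r0 := h_tri (sec (x 0)) (sec (x 1)) (sec (x 2))
  have r1 := h_tri (sec (x 1)) (sec (x 2)) (sec (x 3))
  have r2 := h_tri (sec (x 2)) (sec (x 3)) (sec (x 4))
  have r3 := h_tri (sec (x 3)) (sec (x 4)) (sec (x 5))
  have r4 := h_tri (sec (x 4)) (sec (x 5)) (sec (x 6))
  have hPP : ∀ a b c d', PP sec e (x 0) a b c d' (x 6) ↔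
      psi (sec (x 0)) (sec a) (sec b) (sec c) (sec d') (sec (x 6)) = true := fun a b c d' =>
    ⟨fun h => h.2.2, fun h => ⟨hx0, hx6, h⟩⟩
  simp only [hPP]
  -- the hexagonal length
  by_cases hH : h (sec (x 0)) (sec (x 1)) + h (sec (x 1)) (sec (x 2)) + h (sec (x 2)) (sec (x 3)) +
      h (sec (x 3)) (sec (x 4)) + h (sec (x 4)) (sec (x 5)) + h (sec (x 5)) (sec (x 6)) = 7
  · have e0 : (d (x 0) (x 2) = d (x 0) (x 1) + d (x 1) (x 2) ∧
        psi (sec (x 0)) (sec (x 2)) (sec (x 3)) (sec (x 4)) (sec (x 5)) (sec (x 6)) = true) ↔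
        (h (sec (x 0)) (sec (x 2)) = h (sec (x 0)) (sec (x 1)) + h (sec (x 1)) (sec (x 2)) ∧
        psi (sec (x 0)) (sec (x 2)) (sec (x 3)) (sec (x 4)) (sec (x 5)) (sec (x 6)) = true) :=
      and_congr_left fun hp => by
        have := psi_len _ _ _ _ _ _ hp
        omega
    have e1 : (d (x 1) (x 3) = d (x 1) (x 2) + d (x 2) (x 3) ∧
        psi (sec (x 0)) (sec (x 1)) (sec (x 3)) (sec (x 4)) (sec (x 5)) (sec (x 6)) = true) ↔
        (h (sec (x 1)) (sec (x 3)) = h (sec (x 1)) (sec (x 2)) + h (sec (x 2)) (sec (x 3)) ∧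
        psi (sec (x 0)) (sec (x 1)) (sec (x 3)) (sec (x 4)) (sec (x 5)) (sec (x 6)) = true) :=
      and_congr_left fun hp => by
        have := psi_len _ _ _ _ _ _ hp
        omega
    have e2 : (d (x 2) (x 4) = d (x 2) (x 3) + d (x 3) (x 4) ∧
        psi (sec (x 0)) (sec (x 1)) (sec (x 2)) (sec (x 4)) (sec (x 5)) (sec (x 6)) = true) ↔
        (h (sec (x 2)) (sec (x 4)) = h (sec (x 2)) (sec (x 3)) + h (sec (x 3)) (sec (x 4)) ∧
        psi (sec (x 0)) (sec (x 1)) (sec (x 2)) (sec (x 4)) (sec (x 5)) (sec (x 6)) = true) :=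
      and_congr_left fun hp => by
        have := psi_len _ _ _ _ _ _ hp
        omega
    have e3 : (d (x 3) (x 5) = d (x 3) (x 4) + d (x 4) (x 5) ∧
        psi (sec (x 0)) (sec (x 1)) (sec (x 2)) (sec (x 3)) (sec (x 5)) (sec (x 6)) = true) ↔
        (h (sec (x 3)) (sec (x 5)) = h (sec (x 3)) (sec (x 4)) + h (sec (x 4)) (sec (x 5)) ∧
        psi (sec (x 0)) (sec (x 1)) (sec (x 2)) (sec (x 3)) (sec (x 5)) (sec (x 6)) = true) :=
      and_congr_left fun hp => by
        have := psi_len _ _ _ _ _ _ hp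
        omega
    have e4 : (d (x 4) (x 6) = d (x 4) (x 5) + d (x 5) (x 6) ∧
        psi (sec (x 0)) (sec (x 1)) (sec (x 2)) (sec (x 3)) (sec (x 4)) (sec (x 6)) = true) ↔
        (h (sec (x 4)) (sec (x 6)) = h (sec (x 4)) (sec (x 5)) + h (sec (x 5)) (sec (x 6)) ∧
        psi (sec (x 0)) (sec (x 1)) (sec (x 2)) (sec (x 3)) (sec (x 4)) (sec (x 6)) = true) :=
      and_congr_left fun hp => by
        have := psi_len _ _ _ _ _ _ hp
        omega
    simp only [e0, e1, e2, e3, e4]
    have hcond := cond_all (sec (x 1)) (sec (x 2)) (sec (x 3)) (sec (x 4)) (sec (x 5))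
    have q : ∀ {s t : Fin 6}, 0 < h s t → s ≠ t := fun {s t} hst hst' => by
      rw [hst', h_self] at hst
      exact lt_irrefl _ hst
    have q0 : sec (x 1) ≠ 0 := by
      rw [← s0]
      exact (q (by omega)).symm
    have q1 : sec (x 1) ≠ sec (x 2) := q (by omega)
    have q2 : sec (x 2) ≠ sec (x 3) := q (by omega)
    have q3 : sec (x 3) ≠ sec (x 4) := q (by omega)
    have q4 : sec (x 4) ≠ sec (x 5) := q (by omega)
    have q5 : sec (x 5) ≠ 1 := by
      rw [← s6]
      exact q (by omega)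
    rw [s0, s6] at hH ⊢
    simp only [cond, hH, q0, q1, q2, q3, q4, q5, beq_iff_eq, beq_self_eq_true, Bool.not_true,
      Bool.false_or, Bool.or_eq_true, Bool.and_eq_true, false_or] at hcond
    exact hcond
  · have e0 : ¬ (d (x 0) (x 2) = d (x 0) (x 1) + d (x 1) (x 2) ∧
        psi (sec (x 0)) (sec (x 2)) (sec (x 3)) (sec (x 4)) (sec (x 5)) (sec (x 6)) = true) :=
      fun hp => by
        have := psi_len _ _ _ _ _ _ hp.2
        omega
    have e1 : ¬ (d (x 1) (x 3) = d (x 1) (x 2) + d (x 2) (x 3) ∧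
        psi (sec (x 0)) (sec (x 1)) (sec (x 3)) (sec (x 4)) (sec (x 5)) (sec (x 6)) = true) :=
      fun hp => by
        have := psi_len _ _ _ _ _ _ hp.2
        omega
    have e2 : ¬ (d (x 2) (x 4) = d (x 2) (x 3) + d (x 3) (x 4) ∧
        psi (sec (x 0)) (sec (x 1)) (sec (x 2)) (sec (x 4)) (sec (x 5)) (sec (x 6)) = true) :=
      fun hp => by
        have := psi_len _ _ _ _ _ _ hp.2
        omega
    have e3 : ¬ (d (x 3) (x 5) = d (x 3) (x 4) + d (x 4) (x 5) ∧
        psi (sec (x 0)) (sec (x 1)) (sec (x 2)) (sec (x 3)) (sec (x 5)) (sec (x 6)) = true) :=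
      fun hp => by
        have := psi_len _ _ _ _ _ _ hp.2
        omega
    have e4 : ¬ (d (x 4) (x 6) = d (x 4) (x 5) + d (x 5) (x 6) ∧
        psi (sec (x 0)) (sec (x 1)) (sec (x 2)) (sec (x 3)) (sec (x 4)) (sec (x 6)) = true) :=
      fun hp => by
        have := psi_len _ _ _ _ _ _ hp.2
        omega
    simp only [e0, e1, e2, e3, e4, if_false, add_zero]

end Cocycle

/-! ### The cycle -/

section Cycle

variable {V : Type*} (d : V → V → ℕ)

open Classical in
theorem bd_five (x0 x1 x2 x3 x4 x5 : V) :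
    bd d 5 (Finsupp.single ![x0, x1, x2, x3, x4, x5] 1) =
      (if d x0 x2 = d x0 x1 + d x1 x2 then -Finsupp.single ![x0, x2, x3, x4, x5] (1 : ℤ) else 0) +
      (if d x1 x3 = d x1 x2 + d x2 x3 then Finsupp.single ![x0, x1, x3, x4, x5] (1 : ℤ) else 0) +
      (if d x2 x4 = d x2 x3 + d x3 x4 then -Finsupp.single ![x0, x1, x2, x4, x5] (1 : ℤ) else 0) +
      (if d x3 x5 = d x3 x4 + d x4 x5 then Finsupp.single ![x0, x1, x2, x3, x5] (1 : ℤ) else 0) := by
  rw [bd, Finsupp.linearCombination_single, one_smul, Fin.sum_univ_four]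
  have f0 : (fun m => ![x0, x1, x2, x3, x4, x5] ((0 : Fin 4).succ.castSucc.succAbove m)) =
      ![x0, x2, x3, x4, x5] := by
    funext m
    fin_cases m <;> rfl
  have f1 : (fun m => ![x0, x1, x2, x3, x4, x5] ((1 : Fin 4).succ.castSucc.succAbove m)) =
      ![x0, x1, x3, x4, x5] := by
    funext m
    fin_cases m <;> rfl
  have f2 : (fun m => ![x0, x1, x2, x3, x4, x5] ((2 : Fin 4).succ.castSucc.succAbove m)) =
      ![x0, x1, x2, x4, x5] := by
    funext m
    fin_cases m <;> rfl
  have f3 : (fun m => ![x0, x1, x2, x3, x4, x5] ((3 : Fin 4).succ.castSucc.succAbove m)) =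
      ![x0, x1, x2, x3, x5] := by
    funext m
    fin_cases m <;> rfl
  rw [f0, f1, f2, f3]
  have g0 : ((-1 : ℤ)) ^ ((0 : Fin 4).val + 1) = -1 := by norm_num
  have g1 : ((-1 : ℤ)) ^ ((1 : Fin 4).val + 1) = 1 := by norm_num
  have g2 : ((-1 : ℤ)) ^ ((2 : Fin 4).val + 1) = -1 := by decide
  have g3 : ((-1 : ℤ)) ^ ((3 : Fin 4).val + 1) = 1 := by decide
  rw [g0, g1, g2, g3]
  simp only [Finsupp.single_neg]
  rfl

/-- the cycle -/
noncomputable def cyc (e : Fin 6 → V) : (Fin 6 → V) →₀ ℤ :=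
  Finsupp.single ![e 0, e 5, e 3, e 4, e 2, e 1] 1 - Finsupp.single ![e 0, e 5, e 3, e 4, e 0, e 1] 1
  + Finsupp.single ![e 0, e 5, e 3, e 1, e 0, e 1] 1
  - Finsupp.single ![e 0, e 2, e 3, e 1, e 0, e 1] 1
  - Finsupp.single ![e 0, e 1, e 3, e 4, e 2, e 1] 1
  + Finsupp.single ![e 0, e 1, e 3, e 4, e 0, e 1] 1
  + Finsupp.single ![e 0, e 1, e 2, e 3, e 0, e 1] 1
  + Finsupp.single ![e 0, e 1, e 0, e 4, e 2, e 1] 1
  - Finsupp.single ![e 0, e 1, e 0, e 4, e 0, e 1] 1

theorem bd_cyc (e : Fin 6 → V) (hiso : ∀ s t, d (e s) (e t) = h s t) : bd d 5 (cyc e) = 0 := by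
  have hv : h 0 1 = 1 ∧ h 0 2 = 2 ∧ h 0 3 = 3 ∧ h 0 4 = 2 ∧ h 0 5 = 1 ∧ h 1 0 = 1 ∧ h 1 2 = 1 ∧
      h 1 3 = 2 ∧ h 1 4 = 3 ∧ h 1 5 = 2 ∧ h 2 0 = 2 ∧ h 2 1 = 1 ∧ h 2 3 = 1 ∧ h 2 4 = 2 ∧
      h 2 5 = 3 ∧ h 3 0 = 3 ∧ h 3 1 = 2 ∧ h 3 2 = 1 ∧ h 3 4 = 1 ∧ h 3 5 = 2 ∧ h 4 0 = 2 ∧
      h 4 1 = 3 ∧ h 4 2 = 2 ∧ h 4 3 = 1 ∧ h 4 5 = 1 ∧ h 5 0 = 1 ∧ h 5 1 = 2 ∧ h 5 2 = 3 ∧
      h 5 3 = 2 ∧ h 5 4 = 1 ∧ h 0 0 = 0 ∧ h 1 1 = 0 ∧ h 2 2 = 0 ∧ h 3 3 = 0 ∧ h 4 4 = 0 ∧
      h 5 5 = 0 := by decide
  unfold cyc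
  simp only [map_add, map_sub, bd_five, hiso, hv]
  norm_num
  abel

theorem single_mem_MC (e : Fin 6 → V) (hiso : ∀ s t, d (e s) (e t) = h s t)
    (hne : ∀ s t, s ≠ t → e s ≠ e t) (a0 a1 a2 a3 a4 a5 : Fin 6)
    (h1 : a0 ≠ a1 ∧ a1 ≠ a2 ∧ a2 ≠ a3 ∧ a3 ≠ a4 ∧ a4 ≠ a5)
    (h2 : h a0 a1 + h a1 a2 + h a2 a3 + h a3 a4 + h a4 a5 = 7) :
    Finsupp.single ![e a0, e a1, e a2, e a3, e a4, e a5] (1 : ℤ) ∈ MC d 5 7 := by
  refine Finsupp.single_mem_supported ℤ 1 ⟨fun i => ?_, ?_⟩
  · fin_cases i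
    · exact hne _ _ h1.1
    · exact hne _ _ h1.2.1
    · exact hne _ _ h1.2.2.1
    · exact hne _ _ h1.2.2.2.1
    · exact hne _ _ h1.2.2.2.2
  · rw [len, Fin.sum_univ_five]
    change d (e a0) (e a1) + d (e a1) (e a2) + d (e a2) (e a3) + d (e a3) (e a4) +
      d (e a4) (e a5) = 7
    rw [hiso, hiso, hiso, hiso, hiso, h2]

theorem cyc_mem (e : Fin 6 → V) (hiso : ∀ s t, d (e s) (e t) = h s t)
    (hne : ∀ s t, s ≠ t → e s ≠ e t) : cyc e ∈ Z d 5 7 := by
  have hm := single_mem_MC d e hiso hne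
  refine ⟨?_, bd_cyc d e hiso⟩
  unfold cyc
  refine sub_mem (add_mem (add_mem (add_mem (sub_mem (sub_mem (add_mem (sub_mem ?_ ?_) ?_) ?_)
    ?_) ?_) ?_) ?_) ?_ <;> exact hm _ _ _ _ _ _ (by decide) (by decide)

/-- the cocycle is one on the cycle -/
theorem ind_cyc (sec : V → Fin 6) (e : Fin 6 → V) (he : ∀ s, sec (e s) = s) :
    ind (PP sec e) (cyc e) = 1 := by
  classical
  unfold cyc
  simp only [map_add, map_sub, ind_single]
  have hPP : ∀ a b c d', PP sec e (e 0) (e a) (e b) (e c) (e d') (e 1) ↔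
      psi 0 a b c d' 1 = true := fun a b c d' => by
    unfold PP
    simp only [he, true_and]
  simp only [Matrix.cons_val, hPP]
  decide

/-- the cocycle is zero on cycles with other end points -/
theorem ind_cyc_ne (sec : V → Fin 6) (e e' : Fin 6 → V) (hee : e' 0 = e 0 → e' 1 = e 1 → False) :
    ind (PP sec e) (cyc e') = 0 := by
  classical
  unfold cyc
  simp only [map_add, map_sub, ind_single]
  have hPP : ∀ a b c d', ¬ PP sec e (e' 0) (e' a) (e' b) (e' c) (e' d') (e' 1) :=
    fun a b c d' hP => hee hP.1 hP.2.1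
  simp only [Matrix.cons_val, hPP]
  simp

end Cycle

theorem lower_bound {V : Type*} [Finite V] (d : V → V → ℕ) (hpos : ∀ x y, x ≠ y → 0 < d x y)
    (htri : ∀ x y z, d x z ≤ d x y + d y z) (sec : V → Fin 6)
    (hsec : ∀ x y, h (sec x) (sec y) ≤ d x y) {J : Type*} [Fintype J] (c : J → Fin 6 → V)
    (hc : ∀ j s, sec (c j s) = s) (hinj : ∀ j j' s, c j s = c j' s → j = j')
    (hiso : ∀ j s t, d (c j s) (c j t) = h s t) : Fintype.card J * 12 ≤ betti d 5 7 := by
  let e : J × Fin 6 × Bool → Fin 6 → V := fun i s => c i.1 (if i.2.2 then i.2.1 + s else i.2.1 - s)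
  let sc : J × Fin 6 × Bool → V → Fin 6 := fun i x =>
    if i.2.2 then sec x - i.2.1 else i.2.1 - sec x
  have k1 : ∀ (b : Bool) (a s t : Fin 6), h (if b then a + s else a - s)
      (if b then a + t else a - t) = h s t := by decide +kernel
  have k2 : ∀ (b : Bool) (a s t : Fin 6), h (if b then s - a else a - s)
      (if b then t - a else a - t) = h s t := by decide +kernel
  have k3 : ∀ (b : Bool) (a s : Fin 6), (if b then (if b then a + s else a - s) - a else
      a - (if b then a + s else a - s)) = s := by decide +kernel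
  have k4 : ∀ (b b' : Bool) (a : Fin 6), (if b then a + 1 else a - 1) =
      (if b' then a + 1 else a - 1) → b = b' := by decide +kernel
  have he : ∀ i s, sc i (e i s) = s := fun i s => by
    simp only [sc, e, hc]
    exact k3 _ _ _
  have hci : ∀ j s t, s ≠ t → c j s ≠ c j t := fun j s t hst hst' => hst (by
    rw [← hc j s, hst', hc])
  have key := card_le_betti d 5 7 (fun i => cyc (e i))
    (fun i => cyc_mem d (e i) (fun s t => by
      simp only [e, hiso]
      exact k1 _ _ _ _) fun s t hst hst' => hst (by rw [← he i s, hst', he]))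
    (fun i => ind (PP (sc i) (e i)))
    (fun i b hb => cocycle d hpos htri (sc i) (fun x y => by
      simp only [sc]
      rw [k2]
      exact hsec x y) (e i) (he i) b hb)
    (fun i => ind_cyc (sc i) (e i) (he i))
    (fun i i' hii' => ind_cyc_ne (sc i) (e i) (e i') fun h0 h1 => hii' ?_)
  · calc Fintype.card J * 12 = Fintype.card (J × Fin 6 × Bool) := by
          simp [Fintype.card_prod]
      _ ≤ _ := key
  · obtain ⟨j, a, b⟩ := i
    obtain ⟨j', a', b'⟩ := i'
    have z0 : ∀ (b : Bool) (a : Fin 6), (if b then a + 0 else a - 0) = a := by decide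
    simp only [e] at h0 h1
    rw [z0, z0] at h0
    have ha : a' = a := by rw [← hc j' a', h0, hc]
    subst ha
    have hj : j' = j := hinj _ _ _ h0
    subst hj
    have hb := k4 b b' a' (by
      have := congrArg sec h1
      rw [hc, hc] at this
      exact this.symm)
    rw [hb]

/-! ### The arrangement -/

/-- the coefficients of the linear forms -/
def coef : Fin 7 → Fin 5 → ℤ :=
  ![![1, 0, 0, 0, 0], ![0, 1, 0, 0, 0], ![1, 1, 0, 0, 0], ![0, 0, 1, 0, 0], ![0, 0, 0, 1, 0],
    ![0, 0, 0, 0, 1], ![1, 0, 1, 1, 1]]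

/-- integer evaluation -/
def evZ (i : Fin 7) (v : Fin 5 → ℤ) : ℤ :=
  coef i 0 * v 0 + coef i 1 * v 1 + coef i 2 * v 2 + coef i 3 * v 3 + coef i 4 * v 4

/-- the linear forms -/
noncomputable def F (i : Fin 7) : (Fin 5 → ℝ) →ₗ[ℝ] ℝ :=
  (coef i 0 : ℝ) • LinearMap.proj 0 + (coef i 1 : ℝ) • LinearMap.proj 1 +
  (coef i 2 : ℝ) • LinearMap.proj 2 + (coef i 3 : ℝ) • LinearMap.proj 3 +
  (coef i 4 : ℝ) • LinearMap.proj 4

theorem F_apply (i : Fin 7) (x : Fin 5 → ℝ) : F i x =
    coef i 0 * x 0 + coef i 1 * x 1 + coef i 2 * x 2 + coef i 3 * x 3 + coef i 4 * x 4 := rfl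

theorem F_cast (i : Fin 7) (v : Fin 5 → ℤ) : F i (fun k => (v k : ℝ)) = (evZ i v : ℝ) := by
  rw [F_apply, evZ]
  push_cast
  rfl

theorem F0 (x : Fin 5 → ℝ) : F 0 x = x 0 := by simp [F_apply, coef]
theorem F1 (x : Fin 5 → ℝ) : F 1 x = x 1 := by simp [F_apply, coef]
theorem F2 (x : Fin 5 → ℝ) : F 2 x = x 0 + x 1 := by simp [F_apply, coef]
theorem F3 (x : Fin 5 → ℝ) : F 3 x = x 2 := by simp [F_apply, coef]
theorem F4 (x : Fin 5 → ℝ) : F 4 x = x 3 := by simp [F_apply, coef]
theorem F5 (x : Fin 5 → ℝ) : F 5 x = x 4 := by simp [F_apply, coef]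
theorem F6 (x : Fin 5 → ℝ) : F 6 x = x 0 + x 2 + x 3 + x 4 := by simp [F_apply, coef]

/-- test vectors -/
def tv : Fin 9 → Fin 5 → ℤ :=
  ![![1, 0, 0, 0, 0], ![0, 1, 0, 0, 0], ![0, 0, 1, 0, 0], ![0, 0, 0, 1, 0], ![0, 0, 0, 0, 1],
    ![1, -1, 0, 0, 0], ![1, 0, -1, 0, 0], ![0, 0, 1, -1, 0], ![0, 0, 1, 0, -1]]

theorem tv_spec : ∀ i j : Fin 7, i ≠ j → ∃ a : Fin 9, evZ i (tv a) = 0 ∧ evZ j (tv a) ≠ 0 := by
  decide +kernel

theorem ker_inj : Function.Injective fun i => LinearMap.ker (F i) := by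
  intro i j hij
  by_contra hne
  obtain ⟨a, ha, hb⟩ := tv_spec i j hne
  have h1 : (fun k => (tv a k : ℝ)) ∈ LinearMap.ker (F i) := by
    rw [LinearMap.mem_ker, F_cast, ha, Int.cast_zero]
  simp only at hij
  rw [hij, LinearMap.mem_ker, F_cast, Int.cast_eq_zero] at h1
  exact hb h1

theorem F_ne (i : Fin 7) : F i ≠ 0 := by
  intro h0
  obtain ⟨j, hj⟩ : ∃ j : Fin 7, j ≠ i := exists_ne i
  obtain ⟨a, ha, hb⟩ := tv_spec j i hj
  apply hb
  have := F_cast i (tv a)
  rw [h0, LinearMap.zero_apply] at this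
  exact_mod_cast this.symm

/-- the arrangement -/
noncomputable def A : Arrangement 5 where
  hyp := by
    classical exact univ.image fun i => LinearMap.ker (F i)
  codim := by
    classical
    intro H hH
    obtain ⟨i, -, rfl⟩ := Finset.mem_image.1 hH
    have := Module.Dual.finrank_ker_add_one_of_ne_zero (f := F i) (F_ne i)
    rw [this, Module.finrank_fin_fun]

theorem mem_hyp {H : Submodule ℝ (Fin 5 → ℝ)} : H ∈ A.hyp ↔ ∃ i, LinearMap.ker (F i) = H := by
  classical
  constructor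
  · intro hH
    obtain ⟨i, -, hi⟩ := Finset.mem_image.1 hH
    exact ⟨i, hi⟩
  · rintro ⟨i, hi⟩
    exact Finset.mem_image.2 ⟨i, mem_univ i, hi⟩

theorem ker_mem (i : Fin 7) : LinearMap.ker (F i) ∈ A.hyp := mem_hyp.2 ⟨i, rfl⟩

theorem card_hyp : A.hyp.card = 7 := by
  classical
  have : A.hyp = univ.image fun i => LinearMap.ker (F i) := by
    ext H
    rw [mem_hyp, Finset.mem_image]
    simp
  rw [this, Finset.card_image_of_injective _ ker_inj]
  simp

theorem eq_zero_of_F (x : Fin 5 → ℝ) (hx : ∀ i, F i x = 0) : x = 0 := by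
  have h0 := hx 0
  have h1 := hx 1
  have h3 := hx 3
  have h4 := hx 4
  have h5 := hx 5
  rw [F0] at h0
  rw [F1] at h1
  rw [F3] at h3
  rw [F4] at h4
  rw [F5] at h5
  funext k
  fin_cases k <;> assumption

theorem rank_A : A.rank = 5 := by
  have : (⨅ H ∈ A.hyp, H : Submodule ℝ (Fin 5 → ℝ)) = ⊥ := by
    rw [Submodule.eq_bot_iff]
    intro x hx
    simp only [Submodule.mem_iInf] at hx
    exact eq_zero_of_F x fun i => hx _ (ker_mem i)
  rw [Arrangement.rank, this, finrank_bot]

theorem indecomposable_A : A.Indecomposable := by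
  rintro ⟨V₁, V₂, hc, hH, ⟨H₁, hH₁, h1⟩, ⟨H₂, hH₂, h2⟩⟩
  -- the projection
  have hP : ∃ P : (Fin 5 → ℝ) →ₗ[ℝ] (Fin 5 → ℝ), (∀ x, P x ∈ V₁) ∧ ∀ x, x - P x ∈ V₂ := by
    exact ⟨V₁.projection V₂ hc, Submodule.projection_apply_mem hc,
      Submodule.sub_projection_mem hc⟩
  obtain ⟨P, hP1, hP2⟩ := hP
  have key : ∀ i, ∃ ε : ℝ, ∀ x, F i (P x) = ε * F i x := by
    intro i
    rcases hH _ (ker_mem i) with hi | hi
    · exact ⟨0, fun x => by rw [zero_mul]; exact hi (hP1 x)⟩
    · refine ⟨1, fun x => ?_⟩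
      have := hi (hP2 x)
      rw [LinearMap.mem_ker, map_sub, sub_eq_zero] at this
      rw [one_mul, this]
  choose ε hε using key
  have r1 : ∀ x : Fin 5 → ℝ, F 2 x = F 0 x + F 1 x := fun x => by rw [F0, F1, F2]
  have r2 : ∀ x : Fin 5 → ℝ, F 6 x = F 0 x + F 3 x + F 4 x + F 5 x := fun x => by
    rw [F0, F3, F4, F5, F6]
  have q1 : ∀ x : Fin 5 → ℝ, ε 2 * (x 0 + x 1) = ε 0 * x 0 + ε 1 * x 1 := fun x => by
    rw [← F2, ← hε, r1, hε, hε, F0, F1]
  have q2 : ∀ x : Fin 5 → ℝ, ε 6 * (x 0 + x 2 + x 3 + x 4) =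
      ε 0 * x 0 + ε 3 * x 2 + ε 4 * x 3 + ε 5 * x 4 := fun x => by
    rw [← F6, ← hε, r2, hε, hε, hε, hε, F0, F3, F4, F5]
  have a0 := q1 ![1, 0, 0, 0, 0]
  have a1 := q1 ![0, 1, 0, 0, 0]
  have b0 := q2 ![1, 0, 0, 0, 0]
  have b1 := q2 ![0, 0, 1, 0, 0]
  have b2 := q2 ![0, 0, 0, 1, 0]
  have b3 := q2 ![0, 0, 0, 0, 1]
  simp at a0 a1 b0 b1 b2 b3
  have hall : ∀ i, ε i = ε 0 := by
    intro i
    fin_cases i
    · rfl
    · exact a1.symm.trans a0
    · exact a0
    · exact b1.symm.trans b0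
    · exact b2.symm.trans b0
    · exact b3.symm.trans b0
    · exact b0
  obtain ⟨i₁, rfl⟩ := mem_hyp.1 hH₁
  obtain ⟨i₂, rfl⟩ := mem_hyp.1 hH₂
  -- `ε 0 = 0`
  have hne : ∀ i, ∃ x, F i x ≠ 0 := fun i => by
    by_contra hcon
    push Not at hcon
    exact F_ne i (LinearMap.ext hcon)
  have e1 : ε 0 = 0 := by
    obtain ⟨x, hx⟩ := hne i₁
    have := hε i₁ x
    have h3 : F i₁ (P x) = 0 := h1 (hP1 x)
    rw [h3, hall] at this
    rcases mul_eq_zero.1 this.symm with h | h
    · exact h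
    · exact absurd h hx
  have e2 : ε 0 = 1 := by
    obtain ⟨x, hx⟩ := hne i₂
    have := hε i₂ x
    have h3 : F i₂ (x - P x) = 0 := h2 (hP2 x)
    rw [map_sub, sub_eq_zero] at h3
    rw [← h3, hall] at this
    exact (mul_right_cancel₀ hx (by rw [one_mul]; exact this)).symm
  rw [e1] at e2
  exact zero_ne_one e2

/-! ### The chambers and their sign vectors -/

theorem F_cont (i : Fin 7) : Continuous (F i) := LinearMap.continuous_of_finiteDimensional _

theorem F_nz (x : A.compl) (i : Fin 7) : F i x.1 ≠ 0 := fun h0 => x.2 _ (ker_mem i) h0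

theorem mem_compl {x : Fin 5 → ℝ} (hx : ∀ i, F i x ≠ 0) : x ∈ A.compl := by
  intro H hH
  obtain ⟨i, rfl⟩ := mem_hyp.1 hH
  exact hx i

open Classical in
/-- the sign vector of a point -/
noncomputable def sg (x : A.compl) (i : Fin 7) : Bool := decide (0 < F i x.1)

theorem sg_true {x : A.compl} {i : Fin 7} : sg x i = true ↔ 0 < F i x.1 := by
  simp [sg]

theorem sg_false {x : A.compl} {i : Fin 7} : sg x i = false ↔ F i x.1 < 0 := by
  simp only [sg, decide_eq_false_iff_not, not_lt]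
  exact ⟨fun h0 => lt_of_le_of_ne h0 (F_nz x i), le_of_lt⟩

theorem sg_cont : Continuous sg := by
  refine continuous_pi fun i => ?_
  rw [continuous_bool_rng true]
  have h1 : (fun x : A.compl => sg x i) ⁻¹' {true} = {x | 0 < F i x.1} := by
    ext x
    exact sg_true
  have h2 : ((fun x : A.compl => sg x i) ⁻¹' {true})ᶜ = {x | F i x.1 < 0} := by
    ext x
    rw [Set.mem_compl_iff, Set.mem_preimage, Set.mem_singleton_iff, Bool.not_eq_true]
    exact sg_false
  refine ⟨⟨?_⟩, ?_⟩
  · rw [h2]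
    exact isOpen_lt ((F_cont i).comp continuous_subtype_val) continuous_const
  · rw [h1]
    exact isOpen_lt continuous_const ((F_cont i).comp continuous_subtype_val)

/-- the sign vector of a chamber -/
noncomputable def SG : A.Chamber → Fin 7 → Bool := sg_cont.connectedComponentsLift

theorem SG_mk (x : A.compl) : SG (ConnectedComponents.mk x) = sg x :=
  sg_cont.connectedComponentsLift_apply_coe x

theorem seg_apply {x y z : Fin 5 → ℝ} (hz : z ∈ segment ℝ x y) :
    ∃ a b : ℝ, 0 ≤ a ∧ 0 ≤ b ∧ a + b = 1 ∧ ∀ i, F i z = a * F i x + b * F i y := by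
  obtain ⟨a, b, ha, hb, hab, rfl⟩ := hz
  exact ⟨a, b, ha, hb, hab, fun i => by simp⟩

theorem same_side {x y : A.compl} {i : Fin 7} (hs : sg x i = sg y i) {z : Fin 5 → ℝ}
    (hz : z ∈ segment ℝ x.1 y.1) : F i z ≠ 0 := by
  obtain ⟨a, b, ha, hb, hab, hF⟩ := seg_apply hz
  rw [hF]
  have hab' : 0 < a ∨ 0 < b := by
    by_contra hcon
    push Not at hcon
    linarith
  rcases hx : sg x i with _ | _
  · have h1 := sg_false.1 hx
    have h2 := sg_false.1 (hs.symm.trans hx)
    rcases hab' with h3 | h3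
    · have := mul_neg_of_pos_of_neg h3 h1
      have := mul_nonpos_of_nonneg_of_nonpos hb h2.le
      linarith
    · have := mul_neg_of_pos_of_neg h3 h2
      have := mul_nonpos_of_nonneg_of_nonpos ha h1.le
      linarith
  · have h1 := sg_true.1 hx
    have h2 := sg_true.1 (hs.symm.trans hx)
    rcases hab' with h3 | h3
    · have := mul_pos h3 h1
      have := mul_nonneg hb h2.le
      linarith
    · have := mul_pos h3 h2
      have := mul_nonneg ha h1.le
      linarith

theorem SG_inj : Function.Injective SG := by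
  intro C D hCD
  obtain ⟨x, rfl⟩ := ConnectedComponents.surjective_coe C
  obtain ⟨y, rfl⟩ := ConnectedComponents.surjective_coe D
  rw [SG_mk, SG_mk] at hCD
  have hj : JoinedIn A.compl y.1 x.1 := JoinedIn.of_segment_subset fun z hz =>
    mem_compl fun i => by
      rw [segment_symm] at hz
      exact same_side (congrFun hCD i) hz
  rw [joinedIn_iff_joined y.2 x.2] at hj
  exact ConnectedComponents.coe_eq_coe'.2 (pathComponent_subset_component _ hj)

theorem separates_iff (i : Fin 7) (C D : A.Chamber) :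
    A.Separates (LinearMap.ker (F i)) C D ↔ SG C i ≠ SG D i := by
  obtain ⟨x, rfl⟩ := ConnectedComponents.surjective_coe C
  obtain ⟨y, rfl⟩ := ConnectedComponents.surjective_coe D
  constructor
  · intro hsep heq
    obtain ⟨z, hz, hz'⟩ := hsep x y rfl rfl
    rw [SG_mk, SG_mk] at heq
    exact same_side heq hz hz'
  · intro hne x' y' hx' hy'
    rw [← hx', ← hy', SG_mk, SG_mk] at hne
    have h1 : (0 < F i x'.1 ∧ F i y'.1 < 0) ∨ (F i x'.1 < 0 ∧ 0 < F i y'.1) := by
      rcases hx : sg x' i with _ | _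
      · rcases hy : sg y' i with _ | _
        · exact absurd (hx.trans hy.symm) hne
        · exact Or.inr ⟨sg_false.1 hx, sg_true.1 hy⟩
      · rcases hy : sg y' i with _ | _
        · exact Or.inl ⟨sg_true.1 hx, sg_false.1 hy⟩
        · exact absurd (hx.trans hy.symm) hne
    have hden : F i y'.1 - F i x'.1 ≠ 0 := by
      rcases h1 with h1 | h1
      · exact ne_of_lt (by linarith)
      · exact ne_of_gt (by linarith)
    refine ⟨(F i y'.1 / (F i y'.1 - F i x'.1)) • x'.1 +
      (-F i x'.1 / (F i y'.1 - F i x'.1)) • y'.1, ⟨_, _, ?_, ?_, ?_, rfl⟩, ?_⟩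
    · rcases h1 with h1 | h1
      · exact div_nonneg_of_nonpos (by linarith) (by linarith)
      · exact div_nonneg (by linarith) (by linarith)
    · rcases h1 with h1 | h1
      · exact div_nonneg_of_nonpos (by linarith) (by linarith)
      · exact div_nonneg (by linarith) (by linarith)
    · rw [← add_div, ← sub_eq_add_neg, div_self hden]
    · rw [LinearMap.mem_ker, map_add, map_smul, map_smul, smul_eq_mul, smul_eq_mul]
      field_simp
      ring

theorem adj_iff (C D : A.Chamber) : A.tope.Adj C D ↔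
    (univ.filter fun i => SG C i ≠ SG D i).card = 1 := by
  classical
  have h1 : {H | H ∈ A.hyp ∧ A.Separates H C D} =
      (((univ.filter fun i => SG C i ≠ SG D i).image fun i => LinearMap.ker (F i) :
        Finset (Submodule ℝ (Fin 5 → ℝ))) : Set (Submodule ℝ (Fin 5 → ℝ))) := by
    ext H
    rw [Finset.mem_coe, Finset.mem_image]
    constructor
    · rintro ⟨hH, hs⟩
      obtain ⟨i, rfl⟩ := mem_hyp.1 hH
      exact ⟨i, by rw [Finset.mem_filter]; exact ⟨mem_univ _, (separates_iff i C D).1 hs⟩, rfl⟩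
    · rintro ⟨i, hi, rfl⟩
      rw [Finset.mem_filter] at hi
      exact ⟨ker_mem i, (separates_iff i C D).2 hi.2⟩
  have h2 : {H | H ∈ A.hyp ∧ A.Separates H C D}.ncard =
      (univ.filter fun i => SG C i ≠ SG D i).card := by
    rw [h1, Set.ncard_coe_finset, Finset.card_image_of_injective _ ker_inj]
  change (C ≠ D ∧ _) ↔ _
  rw [h2]
  constructor
  · exact fun h0 => h0.2
  · intro h0
    refine ⟨?_, h0⟩
    rintro rfl
    simp at h0

/-! ### The valid sign vectors -/

/-- the valid sign vectors -/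
def valid (s : Fin 7 → Bool) : Bool :=
  !(s 0 == s 1 && s 2 != s 0) && !(s 0 == s 3 && s 3 == s 4 && s 4 == s 5 && s 6 != s 0)

/-- the base point for a sign vector -/
def pt (s : Fin 7 → Bool) : Fin 5 → ℤ :=
  let m (b : Bool) : ℤ := if b == s 6 then 10 else 1
  let q (b : Bool) : ℤ := if b then m b else - m b
  ![m (s 0) * (if s 0 then (if s 1 then 1 else (if s 2 then 2 else 1)) else
      (if s 1 then (if s 2 then -1 else -2) else -1)),
    m (s 0) * (if s 0 then (if s 1 then 1 else (if s 2 then -1 else -2)) else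
      (if s 1 then (if s 2 then 2 else 1) else -1)),
    q (s 3), q (s 4), q (s 5)]

theorem vec7 (s : Fin 7 → Bool) : s = ![s 0, s 1, s 2, s 3, s 4, s 5, s 6] := by
  funext i
  fin_cases i <;> rfl

theorem pt_spec' : ∀ s0 s1 s2 s3 s4 s5 s6 : Bool, valid ![s0, s1, s2, s3, s4, s5, s6] = true →
    ∀ i : Fin 7, (![s0, s1, s2, s3, s4, s5, s6] i = true ∧
      0 < evZ i (pt ![s0, s1, s2, s3, s4, s5, s6])) ∨ (![s0, s1, s2, s3, s4, s5, s6] i = false ∧
      evZ i (pt ![s0, s1, s2, s3, s4, s5, s6]) < 0) := by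
  decide +kernel

theorem pt_spec (s : Fin 7 → Bool) (hs : valid s = true) (i : Fin 7) :
    (s i = true ∧ 0 < evZ i (pt s)) ∨ (s i = false ∧ evZ i (pt s) < 0) := by
  rw [vec7 s] at hs ⊢
  exact pt_spec' _ _ _ _ _ _ _ hs i

/-- the chamber with a given valid sign vector -/
noncomputable def ch (s : Fin 7 → Bool) (hs : valid s = true) : A.Chamber :=
  ConnectedComponents.mk ⟨fun k => (pt s k : ℝ), mem_compl fun i => by
    rw [F_cast, Int.cast_ne_zero]
    rcases pt_spec s hs i with h0 | h0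
    · exact h0.2.ne'
    · exact h0.2.ne⟩

theorem SG_ch (s : Fin 7 → Bool) (hs : valid s = true) : SG (ch s hs) = s := by
  funext i
  rw [ch, SG_mk]
  rcases pt_spec s hs i with h0 | h0
  · rw [h0.1, sg_true]
    change 0 < F i fun k => (pt s k : ℝ)
    rw [F_cast]
    exact_mod_cast h0.2
  · rw [h0.1, sg_false]
    change F i (fun k => (pt s k : ℝ)) < 0
    rw [F_cast]
    exact_mod_cast h0.2

theorem valid_SG (C : A.Chamber) : valid (SG C) = true := by
  obtain ⟨x, rfl⟩ := ConnectedComponents.surjective_coe C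
  rw [SG_mk]
  have t0 := F0 x.1
  have t1 := F1 x.1
  have t2 := F2 x.1
  have t3 := F3 x.1
  have t4 := F4 x.1
  have t5 := F5 x.1
  have t6 := F6 x.1
  have hT : ∀ i, sg x i = true → 0 < F i x.1 := fun i => sg_true.1
  have hF : ∀ i, sg x i = false → F i x.1 < 0 := fun i => sg_false.1
  rw [valid, Bool.and_eq_true]
  constructor
  · rcases s0 : sg x 0 with _ | _ <;> rcases s1 : sg x 1 with _ | _ <;>
      rcases s2 : sg x 2 with _ | _ <;> first | rfl | exfalso
    · have := hF _ s0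
      have := hF _ s1
      have := hT _ s2
      linarith
    · have := hT _ s0
      have := hT _ s1
      have := hF _ s2
      linarith
  · rcases s0 : sg x 0 with _ | _ <;> rcases s3 : sg x 3 with _ | _ <;>
      rcases s4 : sg x 4 with _ | _ <;> rcases s5 : sg x 5 with _ | _ <;>
      rcases s6 : sg x 6 with _ | _ <;> first | rfl | exfalso
    · have := hF _ s0
      have := hF _ s3
      have := hF _ s4
      have := hF _ s5
      have := hT _ s6
      linarith
    · have := hT _ s0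
      have := hT _ s3
      have := hT _ s4
      have := hT _ s5
      have := hF _ s6
      linarith

theorem ch_SG (C : A.Chamber) : ch (SG C) (valid_SG C) = C := SG_inj (SG_ch _ _)

/-! ### The metric of the tope graph -/

instance : Finite A.Chamber := Finite.of_injective SG SG_inj

theorem card_chamber : Nat.card A.Chamber ≤ 128 := by
  have := Nat.card_le_card_of_injective SG SG_inj
  simpa using this

theorem adj_ch {s t : Fin 7 → Bool} (hs : valid s = true) (ht : valid t = true) (i : Fin 7)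
    (hne : s i ≠ t i) (heq : ∀ j, j ≠ i → s j = t j) : A.tope.Adj (ch s hs) (ch t ht) := by
  rw [adj_iff, SG_ch, SG_ch, Finset.card_eq_one]
  refine ⟨i, ?_⟩
  ext j
  rw [Finset.mem_filter, Finset.mem_singleton]
  constructor
  · intro h0
    by_contra hji
    exact h0.2 (heq j hji)
  · rintro rfl
    exact ⟨mem_univ _, hne⟩

theorem flip' : ∀ s0 s1 s2 s3 s4 s5 s6 : Bool, valid ![s0, s1, s2, s3, s4, s5, s6] = true →
    (∀ i : Fin 7, ![s0, s1, s2, s3, s4, s5, s6] i = true) ∨
    ∃ i : Fin 7, ![s0, s1, s2, s3, s4, s5, s6] i = false ∧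
      valid (Function.update ![s0, s1, s2, s3, s4, s5, s6] i true) = true := by
  decide +kernel

theorem reach (n : ℕ) : ∀ (s : Fin 7 → Bool) (hs : valid s = true),
    (univ.filter fun i => s i = false).card = n →
    A.tope.Reachable (ch s hs) (ch (fun _ => true) rfl) := by
  induction n with
  | zero =>
    intro s hs hn
    have : s = fun _ => true := by
      funext i
      by_contra hi
      rw [Finset.card_eq_zero] at hn
      have : i ∈ (univ.filter fun i => s i = false) := by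
        rw [Finset.mem_filter]
        exact ⟨mem_univ _, Bool.eq_false_of_not_eq_true hi⟩
      rw [hn] at this
      exact absurd this (Finset.notMem_empty _)
    subst this
    exact SimpleGraph.Reachable.refl _
  | succ n ih =>
    intro s hs hn
    have h1 := hs
    rw [vec7 s] at h1
    rcases flip' _ _ _ _ _ _ _ h1 with h2 | ⟨i, hi, hv⟩
    · rw [← vec7 s] at h2
      have : (univ.filter fun i => s i = false) = ∅ := by
        rw [Finset.filter_eq_empty_iff]
        intro i _ hi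
        rw [h2 i] at hi
        exact absurd hi (by decide)
      rw [this] at hn
      simp at hn
    · rw [← vec7 s] at hi hv
      refine SimpleGraph.Reachable.trans (SimpleGraph.Adj.reachable
        (adj_ch hs hv i ?_ ?_)) (ih _ hv ?_)
      · rw [hi, Function.update_self]
        decide
      · intro j hj
        rw [Function.update_of_ne hj]
      · have : (univ.filter fun j => Function.update s i true j = false) =
            (univ.filter fun j => s j = false).erase i := by
          ext j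
          rw [Finset.mem_erase, Finset.mem_filter, Finset.mem_filter]
          by_cases hj : j = i
          · subst hj
            simp
          · rw [Function.update_of_ne hj]
            simp [hj]
        rw [this, Finset.card_erase_of_mem (by
          rw [Finset.mem_filter]
          exact ⟨mem_univ _, hi⟩), hn]
        rfl

theorem conn : A.tope.Connected := by
  have : Nonempty A.Chamber := ⟨ch (fun _ => true) rfl⟩
  refine ⟨fun C D => ?_⟩
  have h1 := reach _ (SG C) (valid_SG C) rfl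
  have h2 := reach _ (SG D) (valid_SG D) rfl
  rw [ch_SG] at h1 h2
  exact h1.trans h2.symm

/-- the position in the hexagon -/
def secB (a b c : Bool) : Fin 6 :=
  if a then (if b then 0 else (if c then 5 else 4)) else (if b then (if c then 1 else 2) else 3)

theorem secB_lip : ∀ a b c a' b' c' : Bool, (!(a == b && c != a)) = true →
    (!(a' == b' && c' != a')) = true →
    (b = b' ∧ c = c') ∨ (a = a' ∧ c = c') ∨ (a = a' ∧ b = b') →
    h (secB a b c) (secB a' b' c') ≤ 1 := by
  decide +kernel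

/-- the position of a chamber in the hexagon -/
noncomputable def sec (C : A.Chamber) : Fin 6 := secB (SG C 0) (SG C 1) (SG C 2)

theorem sec_adj {C D : A.Chamber} (hCD : A.tope.Adj C D) : h (sec C) (sec D) ≤ 1 := by
  rw [adj_iff, Finset.card_eq_one] at hCD
  obtain ⟨i, hi⟩ := hCD
  have heq : ∀ j, j ≠ i → SG C j = SG D j := by
    intro j hj
    by_contra hne
    have : j ∈ (univ.filter fun i => SG C i ≠ SG D i) := by
      rw [Finset.mem_filter]
      exact ⟨mem_univ _, hne⟩
    rw [hi, Finset.mem_singleton] at this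
    exact hj this
  have v1 := valid_SG C
  have v2 := valid_SG D
  rw [valid, Bool.and_eq_true] at v1 v2
  refine secB_lip _ _ _ _ _ _ v1.1 v2.1 ?_
  by_cases h0 : (0 : Fin 7) = i
  · subst h0
    exact Or.inl ⟨heq 1 (by decide), heq 2 (by decide)⟩
  · by_cases h1 : (1 : Fin 7) = i
    · subst h1
      exact Or.inr (Or.inl ⟨heq 0 (by decide), heq 2 (by decide)⟩)
    · exact Or.inr (Or.inr ⟨heq 0 h0, heq 1 h1⟩)

theorem sec_walk {C D : A.Chamber} (p : A.tope.Walk C D) : h (sec C) (sec D) ≤ p.length := by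
  induction p with
  | nil => rw [h_self]; exact Nat.zero_le _
  | @cons u v w hadj p ih =>
    rw [SimpleGraph.Walk.length_cons]
    have h1 := h_tri (sec u) (sec v) (sec w)
    have h2 := sec_adj hadj
    omega

theorem sec_dist (C D : A.Chamber) : h (sec C) (sec D) ≤ A.tope.dist C D := by
  obtain ⟨p, hp⟩ := (conn.preconnected C D).exists_walk_length_eq_dist
  rw [← hp]
  exact sec_walk p

/-! ### The hexagonal residues -/

/-- the signs of the first three forms along the hexagon -/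
def triple : Fin 6 → Fin 3 → Bool :=
  ![![true, true, true], ![false, true, true], ![false, true, false], ![false, false, false],
    ![true, false, false], ![true, false, true]]

/-- the signs of the four other forms -/
abbrev J : Type :=
  {p : Bool × Bool × Bool × Bool // (!(p.1 == p.2.1 && p.2.1 == p.2.2.1 && p.2.2.2 != p.1)) = true}

theorem card_J : Fintype.card J = 14 := by decide +kernel

/-- the sign vectors of the residues -/
def vecJ (p : Bool × Bool × Bool × Bool) (s : Fin 6) : Fin 7 → Bool :=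
  ![triple s 0, triple s 1, triple s 2, p.1, p.2.1, p.2.2.1, p.2.2.2]

theorem valid_vecJ : ∀ (p : Bool × Bool × Bool × Bool) (s : Fin 6),
    (!(p.1 == p.2.1 && p.2.1 == p.2.2.1 && p.2.2.2 != p.1)) = true → valid (vecJ p s) = true := by
  decide +kernel

theorem vecJ_adj : ∀ (p : Bool × Bool × Bool × Bool) (s : Fin 6),
    (univ.filter fun i => vecJ p s i ≠ vecJ p (s + 1) i).card = 1 := by
  decide +kernel

theorem secB_triple : ∀ s : Fin 6, secB (triple s 0) (triple s 1) (triple s 2) = s := by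
  decide

/-- the residues -/
noncomputable def c (j : J) (s : Fin 6) : A.Chamber := ch (vecJ j.1 s) (valid_vecJ j.1 s j.2)

theorem sec_c (j : J) (s : Fin 6) : sec (c j s) = s := by
  rw [sec, c, SG_ch]
  exact secB_triple s

theorem c_inj (j j' : J) (s : Fin 6) (hjj : c j s = c j' s) : j = j' := by
  have h1 := congrArg SG hjj
  rw [c, c, SG_ch, SG_ch] at h1
  have a0 := congrFun h1 3
  have a1 := congrFun h1 4
  have a2 := congrFun h1 5
  have a3 := congrFun h1 6
  apply Subtype.ext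
  exact Prod.ext a0 (Prod.ext a1 (Prod.ext a2 a3))

theorem c_adj (j : J) (s : Fin 6) : A.tope.Adj (c j s) (c j (s + 1)) := by
  rw [adj_iff, c, c, SG_ch, SG_ch]
  exact vecJ_adj j.1 s

theorem c_dist (j : J) (s : Fin 6) (n : ℕ) : A.tope.dist (c j s) (c j (s + Fin.ofNat 6 n)) ≤ n := by
  induction n with
  | zero =>
    have : s + Fin.ofNat 6 0 = s := by
      revert s
      decide
    rw [this, SimpleGraph.dist_self]
  | succ n ih =>
    have h1 : s + Fin.ofNat 6 (n + 1) = (s + Fin.ofNat 6 n) + 1 := by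
      ext
      simp only [Fin.ofNat, Fin.val_add]
      change _ = ((s.val + n % 6) % 6 + 1) % 6
      omega
    rw [h1]
    refine (conn.dist_triangle (v := c j (s + Fin.ofNat 6 n))).trans ?_
    rw [SimpleGraph.dist_eq_one_iff_adj.2 (c_adj j _)]
    omega

theorem c_iso (j : J) (s t : Fin 6) : A.tope.dist (c j s) (c j t) = h s t := by
  apply le_antisymm
  · have h1 : ∀ s t : Fin 6, s + Fin.ofNat 6 (t - s).val = t := by decide
    rw [h]
    refine le_min ?_ ?_
    · have := c_dist j t (s - t).val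
      rw [h1, SimpleGraph.dist_comm] at this
      exact this
    · have := c_dist j s (t - s).val
      rw [h1] at this
      exact this
  · have := sec_dist (c j s) (c j t)
    rw [sec_c, sec_c] at this
    exact this

theorem betti_zero_le {V : Type*} [Finite V] (d : V → V → ℕ) : betti d 0 0 ≤ Nat.card V := by
  have : Fintype V := Fintype.ofFinite V
  unfold betti
  refine (Submodule.finrank_quotient_le _).trans ?_
  refine (Submodule.finrank_le _).trans ?_
  rw [Module.finrank_finsupp_self]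
  simp

/-- **Main theorem.** There is an indecomposable arrangement `A` of rank `r = 5` with `n = 7`
hyperplanes in `ℝ^5` such that `β_{r,n}(A) ≠ β_{0,0}(A)`; in fact `β_{0,0}(A) < β_{r,n}(A)`. -/
theorem result : ∃ A : Arrangement 5, A.Indecomposable ∧ A.rank = 5 ∧ A.hyp.card = 7 ∧
    A.betti 0 0 < A.betti A.rank A.hyp.card := by
  refine ⟨A, indecomposable_A, rank_A, card_hyp, ?_⟩
  rw [rank_A, card_hyp]
  have h1 : A.betti 0 0 ≤ 128 := (betti_zero_le _).trans card_chamber
  have h2 : Fintype.card J * 12 ≤ A.betti 5 7 :=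
    lower_bound (fun C D : A.Chamber => A.tope.dist C D)
      (fun x y hxy => conn.pos_dist_of_ne hxy) (fun x y z => conn.dist_triangle) sec sec_dist c
      sec_c c_inj c_iso
  rw [card_J] at h2
  omega

end Pool.Agent.Results.MP_65cbfa_co.ExtremeBettiDiffer
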